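import Pool.Agent.helper66.FB.Spec
import Pool.Agent.helper90.FN.Goals2
import Pool.Agent.helper72.HP.A9
import Pool.Agent.helper72.HP.M2
import Pool.Agent.helper20.HP.S1
import Pool.Agent.helper13.HP.A3

/-!
Module BB of part B of the functional form of MP_5ae64c_pr: `BGoal2` from `B1_stmt` and `B2_stmt`.
-/

set_option autoImplicit false

open scoped BigOperators Topology
open Filter MeasureTheory

namespace Pool.Agent.helper66.FB

set_option linter.unusedSectionVars false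
set_option linter.unusedVariables false

open Finset
open Pool.Agent.helper72.UT (IsFor dep pth rt fors Reg lz pth_length)
open Pool.Agent.helper20.HP
open Pool.Agent.helper90.FN (EF glue dn sk avJ Hit Good BGoal2 G1_stmt G2_stmt G3_stmt G4_stmt)

section marg

/-- marginals of a product -/
lemma BB_marg {V ι κ : Type} [Fintype V] [Fintype ι] [Fintype κ] [DecidableEq ι]
    [DecidableEq κ] [Nonempty V] (σ : κ → ι) (hσ : Function.Injective σ) (F : (κ → V) → ℝ) :
    (∑ a : ι → V, F (a ∘ σ)) / (Fintype.card V : ℝ) ^ Fintype.card ι =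
      (∑ b : κ → V, F b) / (Fintype.card V : ℝ) ^ Fintype.card κ := by
  classical
  have h1 : ∑ a : ι → V, F (a ∘ σ) =
      ∑ x : ({i // i ∈ Set.range σ} → V) × ({i // ¬ (i ∈ Set.range σ)} → V),
        F (x.1 ∘ Equiv.ofInjective σ hσ) := by
    apply Fintype.sum_equiv (Equiv.piEquivPiSubtypeProd (fun i => i ∈ Set.range σ) (fun _ => V))
    intro a
    rfl
  have h2 : ∑ x : ({i // i ∈ Set.range σ} → V) × ({i // ¬ (i ∈ Set.range σ)} → V),
        F (x.1 ∘ Equiv.ofInjective σ hσ) =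
      (Fintype.card V : ℝ) ^ Fintype.card {i // ¬ (i ∈ Set.range σ)} * ∑ b : κ → V, F b := by
    rw [Fintype.sum_prod_type_right]
    have h3 : ∑ c : {i // i ∈ Set.range σ} → V, F (c ∘ Equiv.ofInjective σ hσ) =
        ∑ b : κ → V, F b := by
      apply Fintype.sum_equiv (Equiv.arrowCongr (Equiv.ofInjective σ hσ).symm (Equiv.refl V))
      intro c
      rfl
    rw [Finset.sum_congr rfl (fun y _ => h3), Finset.sum_const, Finset.card_univ, nsmul_eq_mul,
      Fintype.card_fun]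
    push_cast
    ring
  have h4 : Fintype.card ι = Fintype.card κ + Fintype.card {i // ¬ (i ∈ Set.range σ)} := by
    rw [Fintype.card_congr (Equiv.ofInjective σ hσ)]
    have := Fintype.card_subtype_compl (fun i => i ∈ Set.range σ)
    have h5 := Fintype.card_subtype_le (fun i => i ∈ Set.range σ)
    have h6 : Fintype.card (Set.range σ) = Fintype.card {i // i ∈ Set.range σ} := rfl
    omega
  have hn : (Fintype.card V : ℝ) ≠ 0 := by
    exact_mod_cast Fintype.card_ne_zero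
  rw [h1, h2, h4, pow_add]
  field_simp

end marg

variable {V : Type} [Fintype V] [DecidableEq V]

section EFl

lemma BB_EF_mono (G : SimpleGraph V) (B : Finset V) {F F' : (V → V) → ℝ}
    (h : ∀ f ∈ fors G B, F f ≤ F' f) : EF G B F ≤ EF G B F' := by
  unfold EF
  exact div_le_div_of_nonneg_right (Finset.sum_le_sum h) (Nat.cast_nonneg _)

lemma BB_EF_add (G : SimpleGraph V) (B : Finset V) (F F' : (V → V) → ℝ) :
    EF G B (fun f => F f + F' f) = EF G B F + EF G B F' := by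
  unfold EF
  rw [Finset.sum_add_distrib, add_div]

lemma BB_EF_mul (G : SimpleGraph V) (B : Finset V) (c : ℝ) (F : (V → V) → ℝ) :
    EF G B (fun f => c * F f) = c * EF G B F := by
  unfold EF
  rw [← Finset.mul_sum, mul_div_assoc]

lemma BB_EF_sum {ι : Type*} (s : Finset ι) (G : SimpleGraph V) (B : Finset V)
    (F : ι → (V → V) → ℝ) : EF G B (fun f => ∑ i ∈ s, F i f) = ∑ i ∈ s, EF G B (F i) := by
  unfold EF
  rw [Finset.sum_comm, Finset.sum_div]

lemma BB_EF_le (G : SimpleGraph V) (B : Finset V) {F : (V → V) → ℝ} {c : ℝ} (hc : 0 ≤ c)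
    (h : ∀ f ∈ fors G B, F f ≤ c) : EF G B F ≤ c := by
  unfold EF
  have h1 : ∑ f ∈ fors G B, F f ≤ ((fors G B).card : ℝ) * c := by
    have := Finset.sum_le_card_nsmul (fors G B) F c h
    rwa [nsmul_eq_mul] at this
  rcases Nat.eq_zero_or_pos (fors G B).card with h0 | h0
  · rw [h0]; simpa using hc
  · have h2 : (0 : ℝ) < ((fors G B).card : ℝ) := by exact_mod_cast h0
    rw [div_le_iff₀ h2]
    linarith

lemma BB_it_zero (G : SimpleGraph V) (J : ℕ) : ∀ D : Finset V,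
    it G J (fun _ => (0 : ℝ)) D = 0 := by
  induction J with
  | zero => intro D; rfl
  | succ J ih =>
    intro D
    unfold it
    have h0 : ∀ v, EF G D (fun g => it G J (fun _ => (0 : ℝ)) (dn D g v)) = 0 := by
      intro v
      unfold EF
      rw [Finset.sum_eq_zero (fun f _ => ih _), zero_div]
    rw [Finset.sum_eq_zero (fun v _ => h0 v), zero_div]

end EFl

section hit

lemma BB_Hit_mono (K : HW V) {D D' : Finset V} {h h' : ℕ} (hD : D ⊆ D') (hh : h ≤ h')
    (hH : Hit K D h) : Hit K D' h' := by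
  intro x
  obtain ⟨s, rfl⟩ := Nat.exists_eq_add_of_le hh
  rw [W_split]
  refine le_trans ?_ (hH x)
  refine W_mono K _ _ fun l _ => ?_
  have h2 : W K s (lst x l) (fun l' => ind (∀ z ∈ l ++ l', z ∉ D')) ≤
      W K s (lst x l) (fun _ => ind (∀ z ∈ l, z ∉ D)) := by
    refine W_mono K _ _ fun l' _ => ?_
    exact ind_mono fun hz z hzl hzD => hz z (List.mem_append_left _ hzl) (hD hzD)
  rw [W_const] at h2
  exact h2

end hit

section det

lemma BB_sk_single (B : Finset V) (f : V → V) (v : V) : sk B f [v] = dn B f v := by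
  unfold sk dn
  simp

lemma BB_sk_mono (B : Finset V) (f : V → V) {l l' : List V} (h : ∀ x ∈ l, x ∈ l') :
    sk B f l ⊆ sk B f l' := by
  unfold sk
  apply Finset.union_subset_union_right
  apply Finset.biUnion_subset_biUnion_of_subset_left
  intro x hx
  rw [List.mem_toFinset] at hx ⊢
  exact h x hx

/-- size of the skeleton -/
lemma BB_sk_card (B : Finset V) (f : V → V) {N : ℕ} (a : Fin N → V) (i : Fin N) (M : ℕ)
    (h : ∀ x, x ≠ i → (sk B f [a i, a x]).card ≤ (sk B f [a i]).card + M) :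
    (sk B f (List.ofFn a)).card ≤ (sk B f [a i]).card + N * M := by
  have hsub : sk B f (List.ofFn a) ⊆ sk B f [a i] ∪
      Finset.univ.biUnion (fun x : Fin N => sk B f [a i, a x] \ sk B f [a i]) := by
    intro z hz
    by_cases hz1 : z ∈ sk B f [a i]
    · exact Finset.mem_union_left _ hz1
    · apply Finset.mem_union_right
      have hz2 : z ∈ (List.ofFn a).toFinset.biUnion (fun v => (pth B f v).toFinset) := by
        unfold sk at hz
        rcases Finset.mem_union.1 hz with h1 | h1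
        · exact absurd (Finset.mem_union_left _ h1 : z ∈ sk B f [a i]) hz1
        · exact h1
      obtain ⟨v, hv, hzv⟩ := Finset.mem_biUnion.1 hz2
      rw [List.mem_toFinset, List.mem_ofFn] at hv
      obtain ⟨x, rfl⟩ := hv
      refine Finset.mem_biUnion.2 ⟨x, Finset.mem_univ _, Finset.mem_sdiff.2 ⟨?_, hz1⟩⟩
      unfold sk
      apply Finset.mem_union_right
      refine Finset.mem_biUnion.2 ⟨a x, ?_, hzv⟩
      simp
  refine (Finset.card_le_card hsub).trans ((Finset.card_union_le _ _).trans ?_)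
  apply Nat.add_le_add_left
  refine Finset.card_biUnion_le.trans ?_
  have h1 : ∀ x ∈ (Finset.univ : Finset (Fin N)),
      (sk B f [a i, a x] \ sk B f [a i]).card ≤ M := by
    intro x _
    have hss : sk B f [a i] ⊆ sk B f [a i, a x] := BB_sk_mono B f (by simp)
    rw [Finset.card_sdiff_of_subset hss]
    by_cases hx : x = i
    · subst hx
      have h2 : sk B f [a x, a x] ⊆ sk B f [a x] := BB_sk_mono B f (by simp)
      have := Finset.card_le_card h2
      omega
    · have := h x hx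
      omega
  calc ∑ x : Fin N, (sk B f [a i, a x] \ sk B f [a i]).card ≤ ∑ x : Fin N, M :=
        Finset.sum_le_sum h1
    _ = N * M := by simp

end det


section core

/-- the vertex `v` is a good start of the skeleton -/
def BB_g (K : HW V) (o : V) (H : ℕ) (Λ : ℝ) (f : V → V) (v : V) : Prop :=
  Hit K (sk {o} f [v]) H ∧ (dep {o} f v : ℝ) ≤ Λ

/-- at least half of the vertices are good starts -/
def BB_T (K : HW V) (o : V) (H : ℕ) (Λ : ℝ) (f : V → V) : Prop :=
  (Fintype.card V : ℝ) / 2 ≤ ∑ v, ind (BB_g K o H Λ f v)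

lemma BB_notT (G : SimpleGraph V) (K : HW V) (o : V) (H : ℕ) (Λ e₁ e₂ : ℝ)
    (h1 : it G 1 (fun D => ind (¬ Hit K D H)) {o} ≤ e₁)
    (h2 : EF G {o} (fun f => ∑ v, ind (Λ < dep {o} f v)) ≤ e₂ * Fintype.card V) :
    EF G {o} (fun f => ind (¬ BB_T K o H Λ f)) ≤ 2 * (e₁ + e₂) := by
  have hn : (0 : ℝ) < (Fintype.card V : ℝ) := by
    exact_mod_cast Fintype.card_pos_iff.2 ⟨o⟩
  have hpt : ∀ f : V → V, ind (¬ BB_T K o H Λ f) ≤ 2 / (Fintype.card V : ℝ) *
      (∑ v, ind (¬ Hit K (dn {o} f v) H) + ∑ v, ind (Λ < dep {o} f v)) := by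
    intro f
    have hnn : 0 ≤ ∑ v, ind (¬ Hit K (dn {o} f v) H) + ∑ v, ind (Λ < dep {o} f v) :=
      add_nonneg (Finset.sum_nonneg fun v _ => ind_nonneg _)
        (Finset.sum_nonneg fun v _ => ind_nonneg _)
    by_cases hT : BB_T K o H Λ f
    · rw [ind_false (not_not.2 hT)]
      positivity
    · rw [ind_true hT]
      have hT' : ∑ v, ind (BB_g K o H Λ f v) < (Fintype.card V : ℝ) / 2 := not_le.1 hT
      have h3 : (Fintype.card V : ℝ) ≤ ∑ v, ind (BB_g K o H Λ f v) +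
          (∑ v, ind (¬ Hit K (dn {o} f v) H) + ∑ v, ind (Λ < dep {o} f v)) := by
        rw [← Finset.sum_add_distrib, ← Finset.sum_add_distrib]
        have h4 : (Fintype.card V : ℝ) = ∑ v : V, (1 : ℝ) := by simp
        rw [h4]
        apply Finset.sum_le_sum
        intro v _
        by_cases ha : Hit K (dn {o} f v) H
        · by_cases hb : (dep {o} f v : ℝ) ≤ Λ
          · rw [ind_true (p := BB_g K o H Λ f v) ⟨by rw [BB_sk_single]; exact ha, hb⟩]
            linarith [ind_nonneg (¬ Hit K (dn {o} f v) H), ind_nonneg (Λ < dep {o} f v)]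
          · rw [ind_true (p := Λ < dep {o} f v) (not_le.1 hb)]
            linarith [ind_nonneg (¬ Hit K (dn {o} f v) H), ind_nonneg (BB_g K o H Λ f v)]
        · rw [ind_true (p := ¬ Hit K (dn {o} f v) H) ha]
          linarith [ind_nonneg (Λ < dep {o} f v), ind_nonneg (BB_g K o H Λ f v)]
      rw [div_mul_eq_mul_div, le_div_iff₀ hn]
      linarith
  refine (BB_EF_mono G {o} (fun f _ => hpt f)).trans ?_
  rw [BB_EF_mul, BB_EF_add, BB_EF_sum]
  have h5 : ∑ v, EF G {o} (fun f => ind (¬ Hit K (dn {o} f v) H)) ≤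
      e₁ * Fintype.card V := by
    have h6 : it G 1 (fun D => ind (¬ Hit K D H)) {o} =
        (∑ v, EF G {o} (fun f => ind (¬ Hit K (dn {o} f v) H))) / (Fintype.card V : ℝ) := rfl
    rw [h6, div_le_iff₀ hn] at h1
    exact h1
  rw [div_mul_eq_mul_div, div_le_iff₀ hn]
  nlinarith

/-- length of one more path -/
lemma BB_len (hWI : WI_stmt) (hK3 : K3_stmt) (G : SimpleGraph V) (d : ℕ) (K : HW V) (hR : Reg G d)
    (hK : K.p = lz G d) (D : Finset V) (hD : D.Nonempty) (H m : ℕ) (hH : Hit K D H) :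
    it G 1 (fun D' => ind (D.card + (m * H + 1) < D'.card)) D ≤ (1 / 2) ^ m := by
  have hn : (0 : ℝ) < (Fintype.card V : ℝ) := by
    obtain ⟨x, _⟩ := hD
    exact_mod_cast Fintype.card_pos_iff.2 ⟨x⟩
  have hit : it G 1 (fun D' => ind (D.card + (m * H + 1) < D'.card)) D =
      (∑ v, EF G D (fun g => ind (D.card + (m * H + 1) < (dn D g v).card))) /
        (Fintype.card V : ℝ) := rfl
  rw [hit, div_le_iff₀ hn, ← BB_EF_sum]
  have h1 := hWI V G d K hR hK D hD (fun γ => ind (m * H + 1 < γ.length)) 1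
    (fun γ => by rw [abs_of_nonneg (ind_nonneg _)]; exact ind_le_one _)
  have h2 : EF G D (fun g => ∑ v, ind (D.card + (m * H + 1) < (dn D g v).card)) ≤
      EF G D (fun g => ∑ v, ind (m * H + 1 < (pth D g v).length)) := by
    refine BB_EF_mono G D fun f _ => Finset.sum_le_sum fun v _ => ind_mono fun h => ?_
    unfold dn at h
    have h3 := Finset.card_union_le D (pth D f v).toFinset
    have h4 := List.toFinset_card_le (pth D f v)
    omega
  refine h2.trans ?_
  refine le_of_tendsto h1.tendsto_sum_nat (Filter.Eventually.of_forall fun N => ?_)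
  have h5 : ∑ t ∈ range N, kw K D t (fun y l => ind (m * H + 1 < (run [y] l).length)) ≤
      kws K D N (fun _ l => ind (m * H < l.length)) := by
    unfold kws
    refine Finset.sum_le_sum fun t _ => ?_
    unfold kw
    refine Finset.sum_le_sum fun y _ => W_mono K _ _ fun l _ => ?_
    refine mul_le_mul_of_nonneg_left ?_ (ind_nonneg _)
    refine ind_mono fun h => ?_
    have h6 := run_length_le [y] l
    rw [List.length_singleton] at h6
    omega
  refine h5.trans ((hK3 V K D H hH m N).trans (le_of_eq ?_))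
  ring

/-- the map of indices which adds the vertex `i` to the last `J` vertices -/
def BB_s (I J : ℕ) (i : Fin I) : Fin (J + 1) → Fin (I + J) :=
  Fin.cons (Fin.castAdd J i) (Fin.natAdd I)

lemma BB_s_inj (I J : ℕ) (i : Fin I) : Function.Injective (BB_s I J i) := by
  unfold BB_s
  rw [Fin.cons_injective_iff]
  refine ⟨?_, Fin.natAdd_injective J I⟩
  rintro ⟨j, hj⟩
  have := congrArg Fin.val hj
  simp at this
  have := i.isLt
  omega

/-- two indices -/
def BB_p {N : ℕ} (i x : Fin N) : Fin 2 → Fin N := ![i, x]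

lemma BB_p_inj {N : ℕ} {i x : Fin N} (h : x ≠ i) : Function.Injective (BB_p i x) := by
  intro u v huv
  unfold BB_p at huv
  fin_cases u <;> fin_cases v <;> simp_all [eq_comm]

/-- the pointwise inequality -/
lemma BB_point (K : HW V) (o : V) (H₁ H₂ m I J : ℕ) (Λ : ℝ) (f : V → V) (hf : ∀ v, (pth {o} f v).length = dep {o} f v + 1)
    (a : Fin (I + J) → V) :
    ind (BB_T K o H₁ Λ f ∧ ¬ (Hit K (sk {o} f (List.ofFn a)) H₂ ∧
        ((sk {o} f (List.ofFn a)).card : ℝ) ≤ Λ + 2 + (I + J) * (m * H₁ + 1))) ≤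
      ind (BB_T K o H₁ Λ f) * ∏ i : Fin I, ind (¬ BB_g K o H₁ Λ f (a (Fin.castAdd J i)))
      + ∑ i : Fin I, ind (Hit K (sk {o} f ((List.ofFn (a ∘ BB_s I J i)).take 1)) H₁ ∧
          ¬ Hit K (sk {o} f (List.ofFn (a ∘ BB_s I J i))) H₂)
      + ∑ i : Fin I, ∑ x : Fin (I + J), (if x = Fin.castAdd J i then 0 else
          ind (Hit K (sk {o} f ((List.ofFn (a ∘ BB_p (Fin.castAdd J i) x)).take 1)) H₁ ∧
            (sk {o} f ((List.ofFn (a ∘ BB_p (Fin.castAdd J i) x)).take 1)).card + (m * H₁ + 1) <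
              (sk {o} f (List.ofFn (a ∘ BB_p (Fin.castAdd J i) x))).card)) := by
  have hn1 : 0 ≤ ind (BB_T K o H₁ Λ f) *
      ∏ i : Fin I, ind (¬ BB_g K o H₁ Λ f (a (Fin.castAdd J i))) :=
    mul_nonneg (ind_nonneg _) (Finset.prod_nonneg fun i _ => ind_nonneg _)
  have hn2 : ∀ i : Fin I, 0 ≤ ind (Hit K (sk {o} f ((List.ofFn (a ∘ BB_s I J i)).take 1)) H₁ ∧
          ¬ Hit K (sk {o} f (List.ofFn (a ∘ BB_s I J i))) H₂) := fun i => ind_nonneg _
  have hn3 : ∀ (i : Fin I) (x : Fin (I + J)), 0 ≤ (if x = Fin.castAdd J i then (0 : ℝ) else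
          ind (Hit K (sk {o} f ((List.ofFn (a ∘ BB_p (Fin.castAdd J i) x)).take 1)) H₁ ∧
            (sk {o} f ((List.ofFn (a ∘ BB_p (Fin.castAdd J i) x)).take 1)).card + (m * H₁ + 1) <
              (sk {o} f (List.ofFn (a ∘ BB_p (Fin.castAdd J i) x))).card)) := by
    intro i x
    split_ifs
    · exact le_rfl
    · exact ind_nonneg _
  have hs2 := Finset.sum_nonneg (s := (Finset.univ : Finset (Fin I))) fun i _ => hn2 i
  have hs3 := Finset.sum_nonneg (s := (Finset.univ : Finset (Fin I))) fun i _ =>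
    Finset.sum_nonneg (s := (Finset.univ : Finset (Fin (I + J)))) fun x _ => hn3 i x
  by_cases hbad : BB_T K o H₁ Λ f ∧ ¬ (Hit K (sk {o} f (List.ofFn a)) H₂ ∧
        ((sk {o} f (List.ofFn a)).card : ℝ) ≤ Λ + 2 + (I + J) * (m * H₁ + 1))
  swap
  · rw [ind_false hbad]
    linarith
  rw [ind_true hbad]
  obtain ⟨hT, hbad⟩ := hbad
  by_cases hg : ∀ i : Fin I, ¬ BB_g K o H₁ Λ f (a (Fin.castAdd J i))
  · have h1 : ∏ i : Fin I, ind (¬ BB_g K o H₁ Λ f (a (Fin.castAdd J i))) = 1 :=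
      Finset.prod_eq_one fun i _ => ind_true (hg i)
    rw [h1, ind_true hT]
    linarith
  push Not at hg
  obtain ⟨i, hi⟩ := hg
  have e1 : (List.ofFn (a ∘ BB_s I J i)).take 1 = [a (Fin.castAdd J i)] := by
    rw [List.ofFn_succ]
    simp [BB_s]
  have e2 : ∀ x, (List.ofFn (a ∘ BB_p (Fin.castAdd J i) x)).take 1 = [a (Fin.castAdd J i)] := by
    intro x
    rw [List.ofFn_succ]
    simp [BB_p]
  have e3 : ∀ x, List.ofFn (a ∘ BB_p (Fin.castAdd J i) x) = [a (Fin.castAdd J i), a x] := by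
    intro x
    simp [BB_p, List.ofFn_succ]
  by_cases hH : Hit K (sk {o} f (List.ofFn a)) H₂
  · -- the skeleton is too large
    have hc : ¬ ((sk {o} f (List.ofFn a)).card : ℝ) ≤ Λ + 2 + (I + J) * (m * H₁ + 1) :=
      fun h => hbad ⟨hH, h⟩
    have hex : ∃ x : Fin (I + J), x ≠ Fin.castAdd J i ∧
        (sk {o} f [a (Fin.castAdd J i)]).card + (m * H₁ + 1) <
          (sk {o} f [a (Fin.castAdd J i), a x]).card := by
      by_contra hne
      push Not at hne
      have h1 := BB_sk_card {o} f a (Fin.castAdd J i) (m * H₁ + 1) hne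
      apply hc
      have h2 : (sk {o} f [a (Fin.castAdd J i)]).card ≤ 1 + (dep {o} f (a (Fin.castAdd J i)) + 1) := by
        rw [BB_sk_single]
        unfold dn
        refine (Finset.card_union_le _ _).trans ?_
        rw [Finset.card_singleton]
        apply Nat.add_le_add_left
        rw [← hf]
        exact List.toFinset_card_le _
      have h3 : ((sk {o} f (List.ofFn a)).card : ℝ) ≤
          1 + (dep {o} f (a (Fin.castAdd J i)) + 1) + (I + J) * (m * H₁ + 1) := by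
        exact_mod_cast h1.trans (Nat.add_le_add_right h2 _)
      have h4 := hi.2
      linarith
    obtain ⟨x, hx, hlt⟩ := hex
    have h5 : (1 : ℝ) ≤ ∑ i : Fin I, ∑ x : Fin (I + J), (if x = Fin.castAdd J i then 0 else
          ind (Hit K (sk {o} f ((List.ofFn (a ∘ BB_p (Fin.castAdd J i) x)).take 1)) H₁ ∧
            (sk {o} f ((List.ofFn (a ∘ BB_p (Fin.castAdd J i) x)).take 1)).card + (m * H₁ + 1) <
              (sk {o} f (List.ofFn (a ∘ BB_p (Fin.castAdd J i) x))).card)) := by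
      refine le_trans ?_ (Finset.single_le_sum (fun i _ => Finset.sum_nonneg fun x _ => hn3 i x)
        (Finset.mem_univ i))
      refine le_trans ?_ (Finset.single_le_sum (fun x _ => hn3 i x) (Finset.mem_univ x))
      rw [if_neg hx, e2, e3, ind_true ⟨hi.1, hlt⟩]
    linarith
  · have h5 : (1 : ℝ) ≤ ∑ i : Fin I, ind (Hit K (sk {o} f ((List.ofFn (a ∘ BB_s I J i)).take 1)) H₁ ∧
          ¬ Hit K (sk {o} f (List.ofFn (a ∘ BB_s I J i))) H₂) := by
      refine le_trans ?_ (Finset.single_le_sum (fun i _ => hn2 i) (Finset.mem_univ i))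
      have hsub : sk {o} f (List.ofFn (a ∘ BB_s I J i)) ⊆ sk {o} f (List.ofFn a) := by
        refine BB_sk_mono {o} f fun x hx => ?_
        rw [List.mem_ofFn] at hx ⊢
        obtain ⟨j, rfl⟩ := hx
        exact ⟨_, rfl⟩
      rw [e1, ind_true ⟨hi.1, fun h => hH (BB_Hit_mono K hsub le_rfl h)⟩]
    linarith

/-- the average of one pointwise term -/
lemma BB_avg1 [Nonempty V] (K : HW V) (o : V) (H₁ I J : ℕ) (Λ : ℝ) (f : V → V) :
    (∑ a : Fin (I + J) → V, ind (BB_T K o H₁ Λ f) *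
        ∏ i : Fin I, ind (¬ BB_g K o H₁ Λ f (a (Fin.castAdd J i)))) /
      (Fintype.card V : ℝ) ^ (I + J) ≤ (1 / 2) ^ I := by
  have hn : (0 : ℝ) < (Fintype.card V : ℝ) := by
    exact_mod_cast Fintype.card_pos
  rw [← Finset.mul_sum, mul_div_assoc]
  have h1 := BB_marg (V := V) (Fin.castAdd J : Fin I → Fin (I + J)) (Fin.castAdd_injective I J)
    (fun b => ∏ i : Fin I, ind (¬ BB_g K o H₁ Λ f (b i)))
  rw [Fintype.card_fin, Fintype.card_fin] at h1
  have h2 : (∑ a : Fin (I + J) → V,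
      ∏ i : Fin I, ind (¬ BB_g K o H₁ Λ f (a (Fin.castAdd J i)))) /
      (Fintype.card V : ℝ) ^ (I + J) =
      ((∑ v, ind (¬ BB_g K o H₁ Λ f v)) / (Fintype.card V : ℝ)) ^ I := by
    rw [div_pow, Fintype.sum_pow]
    exact h1
  rw [h2]
  by_cases hT : BB_T K o H₁ Λ f
  · rw [ind_true hT, one_mul]
    have h3 : ∑ v, ind (¬ BB_g K o H₁ Λ f v) =
        (Fintype.card V : ℝ) - ∑ v, ind (BB_g K o H₁ Λ f v) := by
      rw [Finset.sum_congr rfl (fun v _ => ind_not (BB_g K o H₁ Λ f v)), Finset.sum_sub_distrib]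
      simp
    have h4 : (Fintype.card V : ℝ) / 2 ≤ ∑ v, ind (BB_g K o H₁ Λ f v) := hT
    apply pow_le_pow_left₀
    · exact div_nonneg (Finset.sum_nonneg fun v _ => ind_nonneg _) hn.le
    · rw [div_le_iff₀ hn, h3]
      linarith
  · rw [ind_false hT, zero_mul]
    positivity

lemma BB_swap (G : SimpleGraph V) (B : Finset V) {ι : Type} (s : Finset ι) (x : ℝ)
    (F : ι → (V → V) → ℝ) :
    (∑ a ∈ s, EF G B (F a)) / x = EF G B (fun f => (∑ a ∈ s, F a f) / x) := by
  have h : (fun f : V → V => (∑ a ∈ s, F a f) / x) = fun f => x⁻¹ * ∑ a ∈ s, F a f := by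
    funext f
    rw [div_eq_inv_mul]
  rw [h, BB_EF_mul, BB_EF_sum, div_eq_inv_mul]

/-- the average of the second term -/
lemma BB_avg2 (h1 : G1_stmt) (h2 : G2_stmt) (h3 : G3_stmt) (h4 : G4_stmt) (hIT : IT_stmt)
    [Nonempty V] (G : SimpleGraph V) (hG : G.Connected)
    (K : HW V) (o : V) (H₁ H₂ I J : ℕ) (β : ℝ) (hβ : 0 ≤ β)
    (hB : ∀ D : Finset V, D.Nonempty → Hit K D H₁ → it G J (fun D' => ind (¬ Hit K D' H₂)) D ≤ β)
    (i : Fin I) :
    (∑ a : Fin (I + J) → V, EF G {o} (fun f =>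
        ind (Hit K (sk {o} f ((List.ofFn (a ∘ BB_s I J i)).take 1)) H₁ ∧
          ¬ Hit K (sk {o} f (List.ofFn (a ∘ BB_s I J i))) H₂))) /
      (Fintype.card V : ℝ) ^ (I + J) ≤ β := by
  have hn : (0 : ℝ) < (Fintype.card V : ℝ) := by
    exact_mod_cast Fintype.card_pos
  have hm := BB_marg (V := V) (BB_s I J i) (BB_s_inj I J i)
    (fun b => EF G {o} (fun f => ind (Hit K (sk {o} f ((List.ofFn b).take 1)) H₁ ∧
          ¬ Hit K (sk {o} f (List.ofFn b)) H₂)))
  rw [Fintype.card_fin, Fintype.card_fin] at hm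
  rw [hm]
  have h5 := (hIT h1 h2 h3 h4 V G hG {o} (Finset.singleton_nonempty o)).2 J
    (fun D₁ D₂ => ind (Hit K D₁ H₁ ∧ ¬ Hit K D₂ H₂))
  have h6 : avJ (J + 1) (fun l => EF G {o} (fun f =>
      ind (Hit K (sk {o} f (l.take 1)) H₁ ∧ ¬ Hit K (sk {o} f l) H₂))) ≤ β := by
    refine h5.trans_le ?_
    rw [div_le_iff₀ hn]
    have h7 : ∀ v ∈ (Finset.univ : Finset V), EF G {o} (fun g => it G J
        (fun D₂ => ind (Hit K (dn {o} g v) H₁ ∧ ¬ Hit K D₂ H₂)) (dn {o} g v)) ≤ β := by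
      intro v _
      refine BB_EF_le G {o} hβ fun g _ => ?_
      by_cases hH : Hit K (dn {o} g v) H₁
      · have h8 : (fun D₂ => ind (Hit K (dn {o} g v) H₁ ∧ ¬ Hit K D₂ H₂)) =
            fun D₂ => ind (¬ Hit K D₂ H₂) := by
          funext D₂
          exact ind_congr (and_iff_right hH)
        rw [h8]
        refine hB _ ?_ hH
        exact ⟨o, by unfold dn; simp⟩
      · have h8 : (fun D₂ => ind (Hit K (dn {o} g v) H₁ ∧ ¬ Hit K D₂ H₂)) = fun _ => (0 : ℝ) := by
          funext D₂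
          exact ind_false (fun h => hH h.1)
        rw [h8, BB_it_zero]
        exact hβ
    have h9 := Finset.sum_le_card_nsmul _ _ _ h7
    rw [nsmul_eq_mul, Finset.card_univ] at h9
    linarith
  exact h6

/-- the average of the third term -/
lemma BB_avg3 (h1 : G1_stmt) (h2 : G2_stmt) (h3 : G3_stmt) (h4 : G4_stmt) (hIT : IT_stmt)
    (hWI : WI_stmt) (hK3 : K3_stmt)
    [Nonempty V] (G : SimpleGraph V) (hG : G.Connected) (d : ℕ) (hR : Reg G d)
    (K : HW V) (hK : K.p = lz G d) (o : V) (H₁ m N : ℕ) (i x : Fin N) (hx : x ≠ i) :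
    (∑ a : Fin N → V, EF G {o} (fun f =>
        ind (Hit K (sk {o} f ((List.ofFn (a ∘ BB_p i x)).take 1)) H₁ ∧
            (sk {o} f ((List.ofFn (a ∘ BB_p i x)).take 1)).card + (m * H₁ + 1) <
              (sk {o} f (List.ofFn (a ∘ BB_p i x))).card))) /
      (Fintype.card V : ℝ) ^ N ≤ (1 / 2) ^ m := by
  have hn : (0 : ℝ) < (Fintype.card V : ℝ) := by
    exact_mod_cast Fintype.card_pos
  have hm := BB_marg (V := V) (BB_p i x) (BB_p_inj hx)
    (fun b => EF G {o} (fun f => ind (Hit K (sk {o} f ((List.ofFn b).take 1)) H₁ ∧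
          (sk {o} f ((List.ofFn b).take 1)).card + (m * H₁ + 1) < (sk {o} f (List.ofFn b)).card)))
  rw [Fintype.card_fin, Fintype.card_fin] at hm
  rw [hm]
  have h5 := (hIT h1 h2 h3 h4 V G hG {o} (Finset.singleton_nonempty o)).2 1
    (fun D₁ D₂ => ind (Hit K D₁ H₁ ∧ D₁.card + (m * H₁ + 1) < D₂.card))
  have h6 : avJ (1 + 1) (fun l => EF G {o} (fun f =>
      ind (Hit K (sk {o} f (l.take 1)) H₁ ∧
        (sk {o} f (l.take 1)).card + (m * H₁ + 1) < (sk {o} f l).card))) ≤ (1 / 2) ^ m := by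
    refine h5.trans_le ?_
    rw [div_le_iff₀ hn]
    have h7 : ∀ v ∈ (Finset.univ : Finset V), EF G {o} (fun g => it G 1
        (fun D₂ => ind (Hit K (dn {o} g v) H₁ ∧ (dn {o} g v).card + (m * H₁ + 1) < D₂.card))
          (dn {o} g v)) ≤ (1 / 2) ^ m := by
      intro v _
      refine BB_EF_le G {o} (by positivity) fun g _ => ?_
      by_cases hH : Hit K (dn {o} g v) H₁
      · have h8 : (fun D₂ : Finset V => ind (Hit K (dn {o} g v) H₁ ∧
            (dn {o} g v).card + (m * H₁ + 1) < D₂.card)) =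
            fun D₂ => ind ((dn {o} g v).card + (m * H₁ + 1) < D₂.card) := by
          funext D₂
          exact ind_congr (and_iff_right hH)
        rw [h8]
        exact BB_len hWI hK3 G d K hR hK _ ⟨o, by unfold dn; simp⟩ H₁ m hH
      · have h8 : (fun D₂ : Finset V => ind (Hit K (dn {o} g v) H₁ ∧
            (dn {o} g v).card + (m * H₁ + 1) < D₂.card)) = fun _ => (0 : ℝ) := by
          funext D₂
          exact ind_false (fun h => hH h.1)
        rw [h8, BB_it_zero]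
        positivity
    have h9 := Finset.sum_le_card_nsmul _ _ _ h7
    rw [nsmul_eq_mul, Finset.card_univ] at h9
    linarith
  exact h6

/-- a good list of vertices exists -/
theorem BB_core (h1 : G1_stmt) (h2 : G2_stmt) (h3 : G3_stmt) (h4 : G4_stmt) (hIT : IT_stmt)
    (hWI : WI_stmt) (hK3 : K3_stmt) (G : SimpleGraph V) (hG : G.Connected) (d : ℕ) (hR : Reg G d)
    (K : HW V) (hK : K.p = lz G d) (o : V) (H₁ H₂ m I J : ℕ) (Λ β : ℝ) (hβ : 0 ≤ β)
    (hB : ∀ D : Finset V, D.Nonempty → Hit K D H₁ →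
      it G J (fun D' => ind (¬ Hit K D' H₂)) D ≤ β) :
    ∃ l : List V, l.length = I + J ∧ EF G {o} (fun f => ind (BB_T K o H₁ Λ f ∧
        ¬ (Hit K (sk {o} f l) H₂ ∧
          ((sk {o} f l).card : ℝ) ≤ Λ + 2 + (I + J) * (m * H₁ + 1)))) ≤
      (1 / 2) ^ I + I * β + I * (I + J) * (1 / 2) ^ m := by
  have : Nonempty V := ⟨o⟩
  have hn : (0 : ℝ) < (Fintype.card V : ℝ) := by
    exact_mod_cast Fintype.card_pos
  set X : (Fin (I + J) → V) → ℝ := fun a => EF G {o} (fun f => ind (BB_T K o H₁ Λ f ∧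
        ¬ (Hit K (sk {o} f (List.ofFn a)) H₂ ∧
          ((sk {o} f (List.ofFn a)).card : ℝ) ≤ Λ + 2 + (I + J) * (m * H₁ + 1)))) with hX
  have hA : (∑ a, X a) / (Fintype.card V : ℝ) ^ (I + J) ≤
      (1 / 2) ^ I + I * β + I * (I + J) * (1 / 2) ^ m := by
    have hpt : ∀ a ∈ (Finset.univ : Finset (Fin (I + J) → V)), X a ≤
        EF G {o} (fun f => ind (BB_T K o H₁ Λ f) *
          ∏ i : Fin I, ind (¬ BB_g K o H₁ Λ f (a (Fin.castAdd J i))))
        + ∑ i : Fin I, EF G {o} (fun f =>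
            ind (Hit K (sk {o} f ((List.ofFn (a ∘ BB_s I J i)).take 1)) H₁ ∧
            ¬ Hit K (sk {o} f (List.ofFn (a ∘ BB_s I J i))) H₂))
        + ∑ i : Fin I, ∑ x : Fin (I + J), EF G {o} (fun f => (if x = Fin.castAdd J i then 0 else
            ind (Hit K (sk {o} f ((List.ofFn (a ∘ BB_p (Fin.castAdd J i) x)).take 1)) H₁ ∧
              (sk {o} f ((List.ofFn (a ∘ BB_p (Fin.castAdd J i) x)).take 1)).card + (m * H₁ + 1) <
                (sk {o} f (List.ofFn (a ∘ BB_p (Fin.castAdd J i) x))).card))) := by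
      intro a _
      refine (BB_EF_mono G {o} fun f hf => BB_point K o H₁ H₂ m I J Λ f ?_ a).trans ?_
      · intro v
        exact pth_length v
      · rw [BB_EF_add, BB_EF_add, BB_EF_sum, BB_EF_sum]
        refine add_le_add le_rfl (le_of_eq ?_)
        refine Finset.sum_congr rfl fun i _ => ?_
        rw [BB_EF_sum]
    have hsum := Finset.sum_le_sum hpt
    rw [Finset.sum_add_distrib, Finset.sum_add_distrib] at hsum
    have k1 := Finset.sum_comm (s := (Finset.univ : Finset (Fin (I + J) → V)))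
      (t := (Finset.univ : Finset (Fin I))) (f := fun a i => EF G {o} (fun f =>
            ind (Hit K (sk {o} f ((List.ofFn (a ∘ BB_s I J i)).take 1)) H₁ ∧
            ¬ Hit K (sk {o} f (List.ofFn (a ∘ BB_s I J i))) H₂)))
    have k2 := Finset.sum_comm (s := (Finset.univ : Finset (Fin (I + J) → V)))
      (t := (Finset.univ : Finset (Fin I))) (f := fun a i => ∑ x : Fin (I + J),
          EF G {o} (fun f => (if x = Fin.castAdd J i then 0 else
            ind (Hit K (sk {o} f ((List.ofFn (a ∘ BB_p (Fin.castAdd J i) x)).take 1)) H₁ ∧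
              (sk {o} f ((List.ofFn (a ∘ BB_p (Fin.castAdd J i) x)).take 1)).card + (m * H₁ + 1) <
                (sk {o} f (List.ofFn (a ∘ BB_p (Fin.castAdd J i) x))).card))))
    rw [k1, k2] at hsum
    have hM : (0 : ℝ) < (Fintype.card V : ℝ) ^ (I + J) := by positivity
    have c1 : ∑ a : Fin (I + J) → V, EF G {o} (fun f => ind (BB_T K o H₁ Λ f) *
          ∏ i : Fin I, ind (¬ BB_g K o H₁ Λ f (a (Fin.castAdd J i)))) ≤
        (1 / 2) ^ I * (Fintype.card V : ℝ) ^ (I + J) := by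
      rw [← div_le_iff₀ hM, BB_swap]
      exact BB_EF_le G {o} (by positivity) fun f _ => BB_avg1 K o H₁ I J Λ f
    have c2 : ∀ i ∈ (Finset.univ : Finset (Fin I)), ∑ a : Fin (I + J) → V, EF G {o} (fun f =>
            ind (Hit K (sk {o} f ((List.ofFn (a ∘ BB_s I J i)).take 1)) H₁ ∧
            ¬ Hit K (sk {o} f (List.ofFn (a ∘ BB_s I J i))) H₂)) ≤
        β * (Fintype.card V : ℝ) ^ (I + J) := by
      intro i _
      rw [← div_le_iff₀ hM]
      exact BB_avg2 h1 h2 h3 h4 hIT G hG K o H₁ H₂ I J β hβ hB i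
    have c3 : ∀ i ∈ (Finset.univ : Finset (Fin I)), ∑ a : Fin (I + J) → V, ∑ x : Fin (I + J),
          EF G {o} (fun f => (if x = Fin.castAdd J i then 0 else
            ind (Hit K (sk {o} f ((List.ofFn (a ∘ BB_p (Fin.castAdd J i) x)).take 1)) H₁ ∧
              (sk {o} f ((List.ofFn (a ∘ BB_p (Fin.castAdd J i) x)).take 1)).card + (m * H₁ + 1) <
                (sk {o} f (List.ofFn (a ∘ BB_p (Fin.castAdd J i) x))).card))) ≤
        (I + J) * ((1 / 2) ^ m * (Fintype.card V : ℝ) ^ (I + J)) := by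
      intro i _
      rw [Finset.sum_comm]
      have c4 : ∀ x ∈ (Finset.univ : Finset (Fin (I + J))), ∑ a : Fin (I + J) → V,
          EF G {o} (fun f => (if x = Fin.castAdd J i then 0 else
            ind (Hit K (sk {o} f ((List.ofFn (a ∘ BB_p (Fin.castAdd J i) x)).take 1)) H₁ ∧
              (sk {o} f ((List.ofFn (a ∘ BB_p (Fin.castAdd J i) x)).take 1)).card + (m * H₁ + 1) <
                (sk {o} f (List.ofFn (a ∘ BB_p (Fin.castAdd J i) x))).card))) ≤
          (1 / 2) ^ m * (Fintype.card V : ℝ) ^ (I + J) := by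
        intro x _
        by_cases hx : x = Fin.castAdd J i
        · have c5 : ∀ a ∈ (Finset.univ : Finset (Fin (I + J) → V)),
            EF G {o} (fun f => (if x = Fin.castAdd J i then (0 : ℝ) else
            ind (Hit K (sk {o} f ((List.ofFn (a ∘ BB_p (Fin.castAdd J i) x)).take 1)) H₁ ∧
              (sk {o} f ((List.ofFn (a ∘ BB_p (Fin.castAdd J i) x)).take 1)).card + (m * H₁ + 1) <
                (sk {o} f (List.ofFn (a ∘ BB_p (Fin.castAdd J i) x))).card))) = 0 := by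
            intro a _
            unfold EF
            rw [Finset.sum_eq_zero (fun f _ => if_pos hx), zero_div]
          rw [Finset.sum_eq_zero c5]
          positivity
        · have c5 := BB_avg3 h1 h2 h3 h4 hIT hWI hK3 G hG d hR K hK o H₁ m (I + J)
            (Fin.castAdd J i) x hx
          rw [div_le_iff₀ hM] at c5
          refine le_trans (le_of_eq ?_) c5
          refine Finset.sum_congr rfl fun a _ => ?_
          congr 1
          funext f
          rw [if_neg hx]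
      have c6 := Finset.sum_le_card_nsmul _ _ _ c4
      rw [nsmul_eq_mul, Finset.card_univ, Fintype.card_fin] at c6
      push_cast at c6
      exact c6
    have c7 := Finset.sum_le_card_nsmul _ _ _ c2
    have c8 := Finset.sum_le_card_nsmul _ _ _ c3
    rw [nsmul_eq_mul, Finset.card_univ, Fintype.card_fin] at c7 c8
    rw [div_le_iff₀ hM]
    refine (hsum.trans (add_le_add (add_le_add c1 c7) c8)).trans (le_of_eq ?_)
    ring
  have hA' : ∑ a, X a ≤ ∑ a : Fin (I + J) → V,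
      ((1 / 2) ^ I + I * β + I * (I + J) * (1 / 2) ^ m : ℝ) := by
    rw [div_le_iff₀ (by positivity)] at hA
    rw [Finset.sum_const, Finset.card_univ, nsmul_eq_mul, Fintype.card_fun, Fintype.card_fin]
    push_cast
    linarith
  obtain ⟨a, _, ha⟩ := Finset.exists_le_of_sum_le (Finset.univ_nonempty) hA'
  exact ⟨List.ofFn a, List.length_ofFn, ha⟩

end core

section num

lemma BB_cube (J : ℕ) : J ^ 3 ≤ 4 * 2 ^ J := by
  have key : ∀ k : ℕ, (k + 4) ^ 3 ≤ 4 * 2 ^ (k + 4) := by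
    intro k
    induction k with
    | zero => norm_num
    | succ k ih =>
      have h0 : 2 * (k + 4) ^ 3 = (k + 1 + 4) ^ 3 + (k ^ 3 + 9 * k ^ 2 + 21 * k + 3) := by ring
      have h1 : (k + 1 + 4) ^ 3 ≤ 2 * (k + 4) ^ 3 := by omega
      calc (k + 1 + 4) ^ 3 ≤ 2 * (k + 4) ^ 3 := h1
        _ ≤ 2 * (4 * 2 ^ (k + 4)) := Nat.mul_le_mul_left _ ih
        _ = 4 * 2 ^ (k + 1 + 4) := by ring
  by_cases h : 4 ≤ J
  · obtain ⟨k, rfl⟩ := Nat.exists_eq_add_of_le' h
    exact key k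
  · have : J < 4 := not_le.1 h
    interval_cases J <;> norm_num

/-- choice of the numbers of vertices -/
lemma BB_scales (J : ℕ) (hJ : (4 : ℝ) ^ 24 ≤ J) : ∃ I J' : ℕ, I + J' = J ∧ 1 ≤ J' ∧
    (1 / 2 : ℝ) ^ I ≤ (J : ℝ) ^ (-(1 / 24) : ℝ) ∧
    (I : ℝ) * (J' : ℝ) ^ (-(1 / 12) : ℝ) ≤ 8 * (J : ℝ) ^ (-(1 / 24) : ℝ) ∧
    (J' : ℝ) ^ (-(1 / 8) : ℝ) ≤ (J : ℝ) ^ (-(1 / 24) : ℝ) / 2 ∧
    (I : ℝ) * J * (1 / 2) ^ J ≤ 4 * (J : ℝ) ^ (-(1 / 24) : ℝ) := by
  have hJ0 : (0 : ℝ) < J := lt_of_lt_of_le (by positivity) hJ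
  set y : ℝ := (J : ℝ) ^ (1 / 24 : ℝ) with hy
  have hy0 : 0 < y := by positivity
  have hy24 : y ^ 24 = J := by
    rw [hy, ← Real.rpow_natCast, ← Real.rpow_mul hJ0.le]
    norm_num
  have hy4 : 4 ≤ y := by
    by_contra h
    have h1 : y ^ 24 < 4 ^ 24 := pow_lt_pow_left₀ (not_le.1 h) hy0.le (by norm_num)
    linarith
  have hneg : (J : ℝ) ^ (-(1 / 24) : ℝ) = 1 / y := by
    rw [Real.rpow_neg hJ0.le, ← hy]
    exact (one_div y).symm
  have hyJ : 4 * y ≤ J := by
    rw [← hy24]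
    have h1 : (1 : ℝ) ≤ y ^ 22 := one_le_pow₀ (by linarith)
    have h2 : y ^ 24 = y * y * y ^ 22 := by ring
    rw [h2]
    have h3 : 4 * y ≤ y * y := by nlinarith
    nlinarith [mul_pos hy0 hy0]
  set I : ℕ := ⌈y⌉₊ with hI
  have hI1 : y ≤ I := Nat.le_ceil y
  have hI2 : (I : ℝ) < y + 1 := Nat.ceil_lt_add_one hy0.le
  have hI3 : (I : ℝ) ≤ 2 * y := by linarith
  have hIJ : (I : ℝ) ≤ J / 2 := by linarith
  have hIJ' : I ≤ J := by
    have : (I : ℝ) ≤ J := by linarith
    exact_mod_cast this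
  have hI0 : (0 : ℝ) < I := by linarith
  refine ⟨I, J - I, by omega, ?_, ?_, ?_, ?_, ?_⟩
  · have : (I : ℝ) + 1 ≤ J := by linarith
    have h2 : I + 1 ≤ J := by exact_mod_cast this
    omega
  · rw [hneg, one_div_pow]
    apply one_div_le_one_div_of_le hy0
    have h1 : I < 2 ^ I := Nat.lt_two_pow_self
    have h2 : (I : ℝ) < 2 ^ I := by exact_mod_cast h1
    linarith
  all_goals
    have hJ' : ((J - I : ℕ) : ℝ) = J - I := Nat.cast_sub hIJ'
    have hJ'0 : (0 : ℝ) < ((J - I : ℕ) : ℝ) := by rw [hJ']; linarith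
    have hz24 : (((J - I : ℕ) : ℝ) ^ (1 / 24 : ℝ)) ^ 24 = ((J - I : ℕ) : ℝ) := by
      rw [← Real.rpow_natCast, ← Real.rpow_mul hJ'0.le]
      norm_num
    have hz : y / 2 ≤ ((J - I : ℕ) : ℝ) ^ (1 / 24 : ℝ) := by
      by_contra h
      have h1 : (((J - I : ℕ) : ℝ) ^ (1 / 24 : ℝ)) ^ 24 < (y / 2) ^ 24 :=
        pow_lt_pow_left₀ (not_le.1 h) (by positivity) (by norm_num)
      rw [hz24, hJ', div_pow, hy24] at h1
      have h2 : (J : ℝ) / 2 ^ 24 ≤ J / 2 := by
        apply div_le_div_of_nonneg_left hJ0.le (by norm_num) (by norm_num)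
      linarith
  · have h1 : ((J - I : ℕ) : ℝ) ^ (-(1 / 12) : ℝ) =
        1 / (((J - I : ℕ) : ℝ) ^ (1 / 24 : ℝ)) ^ 2 := by
      rw [← Real.rpow_natCast, ← Real.rpow_mul hJ'0.le, Real.rpow_neg hJ'0.le, one_div]
      norm_num
    rw [h1, hneg]
    have h2 : 1 / (((J - I : ℕ) : ℝ) ^ (1 / 24 : ℝ)) ^ 2 ≤ 1 / (y / 2) ^ 2 := by
      apply one_div_le_one_div_of_le (by positivity)
      exact pow_le_pow_left₀ (by positivity) hz 2
    calc (I : ℝ) * (1 / (((J - I : ℕ) : ℝ) ^ (1 / 24 : ℝ)) ^ 2) ≤ (2 * y) * (1 / (y / 2) ^ 2) :=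
          mul_le_mul hI3 h2 (by positivity) (by positivity)
      _ = 8 * (1 / y) := by field_simp; ring
  · have h1 : ((J - I : ℕ) : ℝ) ^ (-(1 / 8) : ℝ) =
        1 / (((J - I : ℕ) : ℝ) ^ (1 / 24 : ℝ)) ^ 3 := by
      rw [← Real.rpow_natCast, ← Real.rpow_mul hJ'0.le, Real.rpow_neg hJ'0.le, one_div]
      norm_num
    rw [h1, hneg]
    have h2 : 1 / (((J - I : ℕ) : ℝ) ^ (1 / 24 : ℝ)) ^ 3 ≤ 1 / (y / 2) ^ 3 := by
      apply one_div_le_one_div_of_le (by positivity)
      exact pow_le_pow_left₀ (by positivity) hz 3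
    refine h2.trans ?_
    have h3 : 1 / (y / 2) ^ 3 = (16 / y ^ 2) * (1 / y / 2) := by field_simp; ring
    rw [h3]
    have h4 : 16 / y ^ 2 ≤ 1 := by
      rw [div_le_one (by positivity)]
      nlinarith
    have h5 : 0 ≤ 1 / y / 2 := by positivity
    nlinarith
  · rw [hneg, one_div_pow]
    have h1 : ((J : ℝ)) ^ 3 ≤ 4 * 2 ^ J := by exact_mod_cast BB_cube J
    have h2 : (0 : ℝ) < 2 ^ J := by positivity
    have h3 : (I : ℝ) * J * (1 / 2 ^ J) ≤ 4 / J := by
      rw [mul_one_div, div_le_div_iff₀ h2 hJ0]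
      have h4 : (I : ℝ) ≤ J := by linarith
      calc (I : ℝ) * J * J ≤ J * J * J := by gcongr
        _ = (J : ℝ) ^ 3 := by ring
        _ ≤ 4 * 2 ^ J := h1
    refine h3.trans ?_
    rw [mul_one_div]
    apply div_le_div_of_nonneg_left (by norm_num) hy0
    linarith

end num

theorem BB (h1 : G1_stmt) (h2 : G2_stmt) (h3 : G3_stmt) (h4 : G4_stmt) (hIT : IT_stmt)
    (hWI : WI_stmt) (hK3 : K3_stmt) (hB1 : B1_stmt) (hB2 : B2_stmt) : BGoal2 := by
  intro S K hK hT
  have ha : 0 < S.a := lt_min S.α_pos (by norm_num)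
  set c : ℝ := min (1 / 24) S.a with hc
  have hc0 : 0 < c := lt_min (by norm_num) ha
  have hc1 : c ≤ 1 / 24 := min_le_left _ _
  have hc2 : c ≤ S.a := min_le_right _ _
  refine ⟨c, 3, hc0, by norm_num, ?_⟩
  intro η hη
  obtain ⟨lam, hlam, hB1k⟩ := hB1 S K hK hT (η / 4) (by positivity)
  obtain ⟨Λ, hΛ, hTk⟩ := hT (η / 4) (by positivity)
  obtain ⟨C, hB2k⟩ := hB2 S K hK lam hlam
  set Cp : ℝ := max C 0 with hCp
  have hCp0 : 0 ≤ Cp := le_max_right _ _
  set J₁ : ℝ := 4 ^ 24 + 2 * lam + 2 * Λ + 3 with hJ₁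
  refine ⟨5 + 8 * Cp + J₁, by positivity, ?_⟩
  have hcard : Tendsto (fun k => (Fintype.card (S.V k) : ℝ)) atTop atTop :=
    tendsto_natCast_atTop_atTop.comp S.card
  filter_upwards [hB1k, hTk, hB2k, hcard.eventually_ge_atTop 2] with k hB1' hTk' hB2' hcn'
  have hcn : 2 ≤ Fintype.card (S.V k) := by exact_mod_cast hcn'
  obtain ⟨d, hR⟩ := M2_reg (S.G k) (S.conn k) (S.trans k) hcn
  have hKp := M2_kernel hR (K k) (fun t x y => hK k t x y)
  set n : ℝ := (Fintype.card (S.V k) : ℝ) with hn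
  have hn0 : 0 < n := by linarith
  set s : ℝ := Real.sqrt n with hs
  set L : ℕ := Nat.sqrt (Fintype.card (S.V k)) with hL
  have hL1 : 1 ≤ L := Nat.sqrt_pos.2 (by omega)
  have hL1' : (1 : ℝ) ≤ L := by exact_mod_cast hL1
  have hsL : s ≤ 2 * L := by
    have h5 : s < (L : ℝ) + 1 := by
      rw [hs, Real.sqrt_lt' (by positivity)]
      have h6 := Nat.lt_succ_sqrt (Fintype.card (S.V k))
      have h7 : n < ((L : ℝ) + 1) * ((L : ℝ) + 1) := by
        rw [hn]; exact_mod_cast h6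
      nlinarith
    linarith
  have hs0 : 0 < s := Real.sqrt_pos.2 hn0
  set H₁ : ℕ := ⌊lam * s⌋₊ with hH₁
  have hH₁' : (H₁ : ℝ) ≤ lam * s := Nat.floor_le (by positivity)
  refine ⟨BB_T (K k) (S.o k) H₁ (Λ * s), ?_, ?_⟩
  · have h5 := BB_notT (S.G k) (K k) (S.o k) H₁ (Λ * s) (η / 4) (η / 4) hB1' hTk'
    refine h5.trans (le_of_eq ?_)
    ring
  intro J hJ hJn
  have hJ1 : (1 : ℝ) ≤ J := by exact_mod_cast hJ
  have hJ0 : (0 : ℝ) < J := by linarith
  by_cases hbig : J₁ ≤ J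
  swap
  · refine ⟨[], by simp, ?_⟩
    have h5 : EF (S.G k) {S.o k} (fun f => ind (BB_T (K k) (S.o k) H₁ (Λ * s) f ∧
        ¬ Good (K k) (sk {S.o k} f []) J c 3)) ≤ 1 :=
      BB_EF_le _ _ zero_le_one fun f _ => ind_le_one _
    refine h5.trans ?_
    have h6 : (J : ℝ) ^ c ≤ J₁ := by
      calc (J : ℝ) ^ c ≤ (J : ℝ) ^ (1 : ℝ) :=
            Real.rpow_le_rpow_of_exponent_le hJ1 (by linarith)
        _ = J := Real.rpow_one _
        _ ≤ J₁ := (not_le.1 hbig).le
    rw [Real.rpow_neg hJ0.le, ← div_eq_mul_inv, le_div_iff₀ (by positivity)]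
    linarith
  have hJ4 : (4 : ℝ) ^ 24 ≤ J := by linarith
  obtain ⟨I, J', hIJ, hJ'1, e1, e2, e3, e4⟩ := BB_scales J hJ4
  set q : ℝ := (J : ℝ) ^ (-(1 / 24) : ℝ) with hq
  have hq0 : 0 < q := by positivity
  have hqc : q ≤ (J : ℝ) ^ (-c) := Real.rpow_le_rpow_of_exponent_le hJ1 (by linarith)
  have hJ'n : (J' : ℝ) ≤ n ^ S.a := by
    have h5 : (J' : ℝ) ≤ J := by
      have : J' ≤ J := by omega
      exact_mod_cast this
    refine h5.trans (hJn.trans ?_)
    exact Real.rpow_le_rpow_of_exponent_le (by linarith) hc2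
  set H₂ : ℕ := ⌊s * (J' : ℝ) ^ (-(1 / 8) : ℝ)⌋₊ with hH₂
  set β : ℝ := Cp * (J' : ℝ) ^ (-(1 / 12) : ℝ) with hβ
  have hβ0 : 0 ≤ β := by positivity
  obtain ⟨l, hl, hlE⟩ := BB_core h1 h2 h3 h4 hIT hWI hK3 (S.G k) (S.conn k) d hR (K k) hKp (S.o k)
    H₁ H₂ J I J' (Λ * s) β hβ0 (fun D hD hH => by
      refine (hB2' D hD hH J' hJ'1 hJ'n).trans ?_
      rw [hβ]
      exact mul_le_mul_of_nonneg_right (le_max_left _ _) (by positivity))
  refine ⟨l, by omega, ?_⟩
  have hcast : (I : ℝ) + J' = J := by exact_mod_cast hIJ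
  refine (BB_EF_mono _ _ (fun f _ => ?_)).trans (hlE.trans ?_)
  · refine ind_mono fun h => ⟨h.1, fun h' => h.2 ⟨?_, ?_⟩⟩
    · refine BB_Hit_mono (K k) (Finset.Subset.refl _) ?_ h'.1
      rw [hH₂]
      apply Nat.floor_le_floor
      calc s * (J' : ℝ) ^ (-(1 / 8) : ℝ) ≤ (2 * L) * (q / 2) :=
            mul_le_mul hsL e3 (by positivity) (by positivity)
        _ = L * q := by ring
        _ ≤ L * (J : ℝ) ^ (-c) := by gcongr
    · refine h'.2.trans ?_
      rw [hcast]
      have h5 : (J : ℝ) ^ (3 : ℝ) = (J : ℝ) ^ 3 := by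
        rw [← Real.rpow_natCast]; norm_num
      rw [h5]
      have h6 : Λ * s ≤ Λ * (2 * L) := by gcongr
      have h7 : (H₁ : ℝ) ≤ lam * (2 * L) := hH₁'.trans (by gcongr)
      have h8 : (J : ℝ) * (J * H₁ + 1) ≤ J * (J * (lam * (2 * L)) + L) := by gcongr
      have h9 : (2 * lam + 2 * Λ + 3 : ℝ) ≤ J := by
        have : (0 : ℝ) ≤ 4 ^ 24 := by positivity
        linarith
      have h10 : (J : ℝ) ^ 2 * (2 * lam + 2 * Λ + 3) ≤ J ^ 3 := by
        have : (J : ℝ) ^ 3 = J ^ 2 * J := by ring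
        rw [this]
        gcongr
      have hJ2 : (1 : ℝ) ≤ (J : ℝ) ^ 2 := one_le_pow₀ hJ1
      have hJJ : (J : ℝ) ≤ (J : ℝ) ^ 2 := by nlinarith
      have h11 : 2 * Λ + 2 + 2 * lam * J ^ 2 + J ≤ (J : ℝ) ^ 3 := by
        nlinarith
      have h12 : (2 * Λ + 2 + 2 * lam * J ^ 2 + J) * (L : ℝ) ≤ (J : ℝ) ^ 3 * L :=
        mul_le_mul_of_nonneg_right h11 (by linarith)
      nlinarith
  · rw [hcast]
    have h5 : (I : ℝ) * β ≤ Cp * (8 * q) := by
      rw [hβ]
      calc (I : ℝ) * (Cp * (J' : ℝ) ^ (-(1 / 12) : ℝ)) =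
            Cp * ((I : ℝ) * (J' : ℝ) ^ (-(1 / 12) : ℝ)) := by ring
        _ ≤ Cp * (8 * q) := mul_le_mul_of_nonneg_left e2 hCp0
    have h6 : (0 : ℝ) < J₁ := by positivity
    calc (1 / 2 : ℝ) ^ I + I * β + I * J * (1 / 2) ^ J ≤ q + Cp * (8 * q) + 4 * q := by
          linarith
      _ = (5 + 8 * Cp) * q := by ring
      _ ≤ (5 + 8 * Cp + J₁) * (J : ℝ) ^ (-c) := by
          apply mul_le_mul (by linarith) hqc hq0.le (by positivity)

end Pool.Agent.helper66.FB
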